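import Pool.Agent.BinPair.Final

set_option autoImplicit false

/-!
# Almost all families of binary matrices have the finiteness property

The joint spectral radius of `q` random binary `n × n` matrices is, except with probability at
most `100 q ^ 2 n ^ (-1/7)`, the spectral radius of the matrix with the largest number of ones.
-/

namespace Pool.Agent.Results.MP_233d20_an.AlmostAllFamilies

open Pool.Agent.BinPair

/-- Among all `2 ^ (q n ^ 2)` families of `q` binary `n × n` matrices the proportion of those
whose joint spectral radius is not attained by the single matrix of the family with the largest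
number of ones is at most `100 q ^ 2 n ^ (-1/7)`. -/
theorem result (q n : ℕ) (hq : 1 ≤ q) (hn : 1 ≤ n) :
    (Nat.card {A : Fin q → Fin n → Fin n → Bool // ¬ AttainedByDensest A} : ℝ) ≤
      100 * (q : ℝ) ^ 2 * (n : ℝ) ^ (-(1 / 7) : ℝ) * 2 ^ (q * n ^ 2) :=
  main q n hq hn

end Pool.Agent.Results.MP_233d20_an.AlmostAllFamilies
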